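import Mathlib

/-!
# Skew products over interval exchange transformations: definitions

`iet lam σ` exchanges the `n` half-open intervals `piece lam j` of `[0,1)`, of lengths `lam j`;
`σ j` is the position of the `j`-th interval after the exchange. `stepFn lam g` is the function
with the value `g j` on the `j`-th interval and `skew lam σ g` is the skew product
`(x, y) ↦ (T x, φ(x) • y)` for an action of `G` on `X`.
-/

set_option autoImplicit false

open MeasureTheory Set Filter Topology

namespace Pool.Agent.H773.IE

section IET

variable {n : ℕ}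

/-- The left endpoint of the `j`-th exchanged interval. -/
noncomputable def left (lam : Fin n → ℝ) (j : Fin n) : ℝ :=
  ∑ i ∈ Finset.univ.filter (fun i => i < j), lam i

/-- The left endpoint of the image of the `j`-th interval, which comes at the place `σ j`. -/
noncomputable def left' (lam : Fin n → ℝ) (σ : Equiv.Perm (Fin n)) (j : Fin n) : ℝ :=
  ∑ i ∈ Finset.univ.filter (fun i => σ i < σ j), lam i

/-- The `j`-th exchanged interval. -/
noncomputable def piece (lam : Fin n → ℝ) (j : Fin n) : Set ℝ :=
  Ico (left lam j) (left lam j + lam j)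

/-- The interval exchange transformation of `[0,1)` (the identity outside of `[0,1)`): the `j`-th
interval is translated from `left lam j` to `left' lam σ j`. -/
noncomputable def iet (lam : Fin n → ℝ) (σ : Equiv.Perm (Fin n)) (x : ℝ) : ℝ :=
  x + ∑ j, (piece lam j).indicator (fun _ => left' lam σ j - left lam j) x

/-- Lebesgue measure on `[0,1)`. -/
noncomputable def leb : Measure ℝ := volume.restrict (Ico (0 : ℝ) 1)

/-- Irreducible permutations: for `0 < k < n` the first `k` intervals are not mapped onto the
first `k` places. -/
def Irr (σ : Equiv.Perm (Fin n)) : Prop :=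
  ∀ k : ℕ, 0 < k → k < n → ∃ i : Fin n, (i : ℕ) < k ∧ k ≤ (σ i : ℕ)

variable {G : Type} [Group G]

open Classical in
/-- The simple function with the value `g j` on the `j`-th interval. -/
noncomputable def stepFn (lam : Fin n → ℝ) (g : Fin n → G) (x : ℝ) : G :=
  if h : ∃ j, x ∈ piece lam j then g h.choose else 1

/-- The skew product `(x, y) ↦ (T x, φ(x) • y)` over the interval exchange transformation `T`. -/
noncomputable def skew {X : Type} [MulAction G X] (lam : Fin n → ℝ) (σ : Equiv.Perm (Fin n))
    (g : Fin n → G) (p : ℝ × X) : ℝ × X :=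
  (iet lam σ p.1, stepFn lam g p.1 • p.2)

end IET

/-! ### Words -/

section Words

variable {n : ℕ}

/-- The translation along a word of labels. -/
def tr (τ : Fin n → ℝ) (w : List (Fin n)) : ℝ := (w.map τ).sum

/-- The product of the group elements along a word; the first letter acts first. -/
def wprod {G : Type} [Group G] (g : Fin n → G) : List (Fin n) → G
  | [] => 1
  | j :: w => wprod g w * g j

/-- The orbit of `x` under `T` visits the sets `P j` in the order given by the word. -/
def Follows (T : ℝ → ℝ) (P : Fin n → Set ℝ) : List (Fin n) → ℝ → Prop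
  | [], _ => True
  | j :: w, x => x ∈ P j ∧ Follows T P w (T x)

/-- Words obtained from the letters by Nielsen moves. -/
inductive Nielsen : (Fin n → List (Fin n)) → Prop
  | base : Nielsen (fun i => [i])
  | right (w : Fin n → List (Fin n)) (α β : Fin n) (h : α ≠ β) (hw : Nielsen w) :
      Nielsen (Function.update w β (w β ++ w α))
  | left (w : Fin n → List (Fin n)) (α β : Fin n) (h : α ≠ β) (hw : Nielsen w) :
      Nielsen (Function.update w α (w β ++ w α))

/-- Nielsen words which have been rotated by a common prefix. -/
def Rot (w : Fin n → List (Fin n)) : Prop :=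
  ∃ (p : List (Fin n)) (r : Fin n → List (Fin n)), Nielsen (fun i => p ++ r i) ∧
    w = fun i => r i ++ p

/-- A box: an interval `[a,b)` with subintervals `[u i, u i + l i)` of length at least
`c (b - a)`; the points of the `i`-th subinterval follow the word `w i` and then are again
in `[a,b)`. -/
structure Box (T : ℝ → ℝ) (P : Fin n → Set ℝ) (τ : Fin n → ℝ) (c a b : ℝ) (u l : Fin n → ℝ)
    (w : Fin n → List (Fin n)) : Prop where
  lt : a < b
  sub : ∀ i, a ≤ u i ∧ u i + l i ≤ b
  len : ∀ i, c * (b - a) ≤ l i
  itin : ∀ i, ∀ x ∈ Ico (u i) (u i + l i), Follows T P (w i) x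
  ret : ∀ i, a ≤ u i + tr τ (w i) ∧ u i + l i + tr τ (w i) ≤ b
  rot : Rot w

/-- The points which are in arbitrarily small intervals `[a k, b k)`. -/
def Xinf (a b : ℕ → ℝ) : Set ℝ := {x | ∀ δ : ℝ, 0 < δ → ∃ k, x ∈ Ico (a k) (b k) ∧ b k - a k < δ}

/-- The set `P j` is translated by `τ j`. -/
structure Sys (T : ℝ → ℝ) (P : Fin n → Set ℝ) (τ : Fin n → ℝ) : Prop where
  meas : ∀ j, MeasurableSet (P j)
  cover : Ico (0 : ℝ) 1 = ⋃ j, P j
  disj : ∀ i j, i ≠ j → Disjoint (P i) (P j)
  trans : ∀ j, ∀ x ∈ P j, T x = x + τ j
  mp : MeasurePreserving T leb leb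

end Words

end Pool.Agent.H773.IE
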