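import Mathlib
import Pool.Agent.H773.IE.Defs

/-!
# Rauzy induction (right end): definitions

Letters are elements of `Fin (m+1)`. A combinatorial state is a pair `s = (s.1, s.2)` of
permutations: `s.1 i` and `s.2 i` are the positions of the letter `i` in the top and in the bottom
row. `et s`, `eb s` are the last letters of the rows. The outcome `true` means that the last letter
of the top row wins (is longer): then the last letter of the bottom row is moved right after it in
the bottom row; `false`: the other way round.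
-/

set_option autoImplicit false

open MeasureTheory Set Filter Topology
open scoped ENNReal

namespace Pool.Agent.H773.IE

/-- Combinatorial states. -/
abbrev Sta (m : ℕ) := Equiv.Perm (Fin (m + 1)) × Equiv.Perm (Fin (m + 1))

section Rz

variable {m : ℕ}

/-- last letter of the top row -/
def et (s : Sta m) : Fin (m + 1) := s.1.symm (Fin.last m)

/-- last letter of the bottom row -/
def eb (s : Sta m) : Fin (m + 1) := s.2.symm (Fin.last m)

/-- the last letter of the row `r` is moved right after the letter `a` (which is not the last) -/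
def ins (r : Equiv.Perm (Fin (m + 1))) (a : Fin (m + 1)) : Equiv.Perm (Fin (m + 1)) :=
  r.trans (Fin.cycleIcc (r a + 1) (Fin.last m))

/-- the winner -/
def win (s : Sta m) (b : Bool) : Fin (m + 1) := if b then et s else eb s

/-- the loser -/
def los (s : Sta m) (b : Bool) : Fin (m + 1) := if b then eb s else et s

/-- the next state -/
def nxt (s : Sta m) (b : Bool) : Sta m := if b then (s.1, ins s.2 (et s)) else (ins s.1 (eb s), s.2)

/-- the new lengths -/
noncomputable def nxtL (s : Sta m) (b : Bool) (lam : Fin (m + 1) → ℝ) : Fin (m + 1) → ℝ :=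
  Function.update lam (win s b) (lam (win s b) - lam (los s b))

/-- the new heights -/
noncomputable def nxtQ (s : Sta m) (b : Bool) (q : Fin (m + 1) → ℝ) : Fin (m + 1) → ℝ :=
  Function.update q (los s b) (q (los s b) + q (win s b))

/-- the new words -/
def nxtW (s : Sta m) (b : Bool) (w : Fin (m + 1) → List (Fin (m + 1))) :
    Fin (m + 1) → List (Fin (m + 1)) :=
  Function.update w (los s b) (w (eb s) ++ w (et s))

/-- the state after a list of outcomes -/
def run : List Bool → Sta m → Sta m
  | [], s => s
  | b :: p, s => run p (nxt s b)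

/-- the lengths after a list of outcomes -/
noncomputable def runL : List Bool → Sta m → (Fin (m + 1) → ℝ) → (Fin (m + 1) → ℝ)
  | [], _, lam => lam
  | b :: p, s, lam => runL p (nxt s b) (nxtL s b lam)

/-- the heights after a list of outcomes -/
noncomputable def runQ : List Bool → Sta m → (Fin (m + 1) → ℝ) → (Fin (m + 1) → ℝ)
  | [], _, q => q
  | b :: p, s, q => runQ p (nxt s b) (nxtQ s b q)

/-- the words after a list of outcomes -/
def runW : List Bool → Sta m → (Fin (m + 1) → List (Fin (m + 1))) →
    (Fin (m + 1) → List (Fin (m + 1)))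
  | [], _, w => w
  | b :: p, s, w => runW p (nxt s b) (nxtW s b w)

/-- the lengths `lam` have the given first outcomes -/
def Cyl : List Bool → Sta m → (Fin (m + 1) → ℝ) → Prop
  | [], _, _ => True
  | b :: p, s, lam => lam (los s b) < lam (win s b) ∧ Cyl p (nxt s b) (nxtL s b lam)

/-- irreducible states -/
def IrrS (s : Sta m) : Prop :=
  ∀ k : ℕ, 0 < k → k ≤ m → ∃ i, (s.1 i : ℕ) < k ∧ k ≤ (s.2 i : ℕ)

/-- there are never ties -/
def NoTie (s : Sta m) (lam : Fin (m + 1) → ℝ) : Prop :=
  ∀ p, Cyl p s lam → runL p s lam (et (run p s)) ≠ runL p s lam (eb (run p s))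

/-- exponential distribution -/
noncomputable def ex (r : ℝ) : Measure ℝ :=
  volume.withDensity fun x => ENNReal.ofReal (if 0 < x then r * Real.exp (-(r * x)) else 0)

/-- the law of the lengths with parameters `q` -/
noncomputable def EE {n : ℕ} (q : Fin n → ℝ) : Measure (Fin n → ℝ) :=
  Measure.pi fun i => ex (q i)

/-- the probability of an outcome -/
noncomputable def pr (s : Sta m) (b : Bool) (q : Fin (m + 1) → ℝ) : ℝ :=
  q (los s b) / (q (los s b) + q (win s b))

/-- the probability of a list of outcomes -/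
noncomputable def prP : List Bool → Sta m → (Fin (m + 1) → ℝ) → ℝ
  | [], _, _ => 1
  | b :: p, s, q => pr s b q * prP p (nxt s b) (nxtQ s b q)

open Classical in
/-- the probability that the target `T` is hit in at most `k` steps -/
noncomputable def hk (T : Sta m → (Fin (m + 1) → ℝ) → Prop) :
    ℕ → Sta m → (Fin (m + 1) → ℝ) → ℝ≥0∞
  | 0, s, q => if T s q then 1 else 0
  | k + 1, s, q => if T s q then 1 else
      ENNReal.ofReal (pr s true q) * hk T k (nxt s true) (nxtQ s true q) +
      ENNReal.ofReal (pr s false q) * hk T k (nxt s false) (nxtQ s false q)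

/-- the probability that the target `T` is hit -/
noncomputable def hP (T : Sta m → (Fin (m + 1) → ℝ) → Prop) (s : Sta m) (q : Fin (m + 1) → ℝ) :
    ℝ≥0∞ := ⨆ k, hk T k s q

/-- balanced heights -/
def Bal {n : ℕ} (R : ℝ) (q : Fin n → ℝ) : Prop := ∀ i j, q i ≤ R * q j

/-- left end of the top interval of the letter `i` -/
noncomputable def uT (s : Sta m) (lam : Fin (m + 1) → ℝ) (i : Fin (m + 1)) : ℝ :=
  ∑ j ∈ Finset.univ.filter (fun j => s.1 j < s.1 i), lam j

/-- left end of the bottom interval of the letter `i` -/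
noncomputable def uB (s : Sta m) (lam : Fin (m + 1) → ℝ) (i : Fin (m + 1)) : ℝ :=
  ∑ j ∈ Finset.univ.filter (fun j => s.2 j < s.2 i), lam j

/-- The induced map on `[0, ∑ lam)` has the combinatorics `s`, lengths `lam` and itineraries
`w`. -/
structure Geo (T : ℝ → ℝ) (P : Fin (m + 1) → Set ℝ) (τ : Fin (m + 1) → ℝ) (s : Sta m)
    (lam : Fin (m + 1) → ℝ) (w : Fin (m + 1) → List (Fin (m + 1))) : Prop where
  pos : ∀ i, 0 < lam i
  itin : ∀ i, ∀ x ∈ Ico (uT s lam i) (uT s lam i + lam i), Follows T P (w i) x
  ret : ∀ i, tr τ (w i) = uB s lam i - uT s lam i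
  cover : ∀ y ∈ Ico (0 : ℝ) 1, ∃ i, ∃ x ∈ Ico (uT s lam i) (uT s lam i + lam i),
    ∃ l < (w i).length, T^[l] x = y

/-- A level: an interval `[0,b)` with an induced map with pieces of length at least `c b`, towers
of height at most `C / b` which cover `[0,1)`, and a common prefix `p` of the itineraries of
length at least `c / b`. -/
structure Lev {n : ℕ} (T : ℝ → ℝ) (P : Fin n → Set ℝ) (τ : Fin n → ℝ) (c C b : ℝ)
    (u l : Fin n → ℝ) (w : Fin n → List (Fin n)) (p : List (Fin n)) : Prop where
  bpos : 0 < b
  sub : ∀ i, 0 ≤ u i ∧ u i + l i ≤ b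
  len : ∀ i, c * b ≤ l i
  itin : ∀ i, ∀ x ∈ Ico (u i) (u i + l i), Follows T P (w i) x
  ret : ∀ i, 0 ≤ u i + tr τ (w i) ∧ u i + l i + tr τ (w i) ≤ b
  cover : ∀ y ∈ Ico (0 : ℝ) 1, ∃ i, ∃ x ∈ Ico (u i) (u i + l i), ∃ k < (w i).length, T^[k] x = y
  niel : Nielsen w
  pre : ∀ i, p <+: w i
  high : c ≤ p.length * b
  low : ∀ i, (w i).length * b ≤ C
  itin0 : ∀ x ∈ Ico (0 : ℝ) b, Follows T P p x
  disj : ∀ j k, j < p.length → k < p.length → j ≠ k →
    Disjoint (Ico (tr τ (p.take j)) (tr τ (p.take j) + b))
      (Ico (tr τ (p.take k)) (tr τ (p.take k) + b))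

/-! ### Basic facts -/

theorem ins_val (r : Equiv.Perm (Fin (m + 1))) (a : Fin (m + 1)) (ha : r a ≠ Fin.last m)
    (i : Fin (m + 1)) : (ins r a i : ℕ) =
      if (r i : ℕ) ≤ (r a : ℕ) then (r i : ℕ) else if r i = Fin.last m then (r a : ℕ) + 1
        else (r i : ℕ) + 1 := by
  have h1 : ((r a + 1 : Fin (m + 1)) : ℕ) = (r a : ℕ) + 1 := by
    rw [Fin.val_add_one, if_neg ha]
  have h2 : r a + 1 ≤ Fin.last m := Fin.le_last _
  simp only [ins, Equiv.trans_apply]
  split_ifs with h3 h4
  · rw [Fin.cycleIcc_of_lt]
    rw [Fin.lt_def, h1]; omega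
  · rw [h4, Fin.cycleIcc_of_last h2, h1]
  · rw [Fin.cycleIcc_of_ge_of_lt]
    · rw [Fin.val_add_one, if_neg h4]
    · rw [Fin.le_def, h1]; omega
    · exact lt_of_le_of_ne (Fin.le_last _) h4

theorem run_append (p p' : List Bool) (s : Sta m) : run (p ++ p') s = run p' (run p s) := by
  induction p generalizing s with
  | nil => rfl
  | cons b p ih => exact ih _

theorem runL_append (p p' : List Bool) (s : Sta m) (lam : Fin (m + 1) → ℝ) :
    runL (p ++ p') s lam = runL p' (run p s) (runL p s lam) := by
  induction p generalizing s lam with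
  | nil => rfl
  | cons b p ih => exact ih _ _

theorem runQ_append (p p' : List Bool) (s : Sta m) (q : Fin (m + 1) → ℝ) :
    runQ (p ++ p') s q = runQ p' (run p s) (runQ p s q) := by
  induction p generalizing s q with
  | nil => rfl
  | cons b p ih => exact ih _ _

theorem runW_append (p p' : List Bool) (s : Sta m) (w : Fin (m + 1) → List (Fin (m + 1))) :
    runW (p ++ p') s w = runW p' (run p s) (runW p s w) := by
  induction p generalizing s w with
  | nil => rfl
  | cons b p ih => exact ih _ _

theorem Cyl_append (p p' : List Bool) (s : Sta m) (lam : Fin (m + 1) → ℝ) :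
    Cyl (p ++ p') s lam ↔ Cyl p s lam ∧ Cyl p' (run p s) (runL p s lam) := by
  induction p generalizing s lam with
  | nil => simp [Cyl, run, runL]
  | cons b p ih =>
    rw [List.cons_append]
    simp only [Cyl, run, runL]
    rw [ih, and_assoc]

theorem prP_append (p p' : List Bool) (s : Sta m) (q : Fin (m + 1) → ℝ) :
    prP (p ++ p') s q = prP p s q * prP p' (run p s) (runQ p s q) := by
  induction p generalizing s q with
  | nil => simp [prP, run, runQ]
  | cons b p ih =>
    rw [List.cons_append]
    simp only [prP, run, runQ]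
    rw [ih, mul_assoc]

theorem et_ne_eb (hm : 1 ≤ m) {s : Sta m} (h : IrrS s) : et s ≠ eb s := by
  obtain ⟨i, h1, h2⟩ := h m hm le_rfl
  have h3 : s.2 i = Fin.last m := by
    apply Fin.ext
    rw [Fin.val_last]
    have := (s.2 i).isLt
    omega
  have h4 : eb s = i := by rw [eb, ← h3, Equiv.symm_apply_apply]
  intro h5
  rw [h4] at h5
  have h6 : s.1 i = Fin.last m := by rw [← h5, et, Equiv.apply_symm_apply]
  rw [h6, Fin.val_last] at h1
  omega

theorem win_ne_los (hm : 1 ≤ m) {s : Sta m} (h : IrrS s) (b : Bool) : win s b ≠ los s b := by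
  cases b
  · simpa [win, los] using (et_ne_eb hm h).symm
  · simpa [win, los] using et_ne_eb hm h

theorem nxtQ_pos {s : Sta m} {q : Fin (m + 1) → ℝ} (h : ∀ i, 0 < q i) (b : Bool) :
    ∀ i, 0 < nxtQ s b q i := by
  intro i
  rw [nxtQ, Function.update_apply]
  split_ifs
  · exact add_pos (h _) (h _)
  · exact h i

theorem runQ_pos {s : Sta m} {q : Fin (m + 1) → ℝ} (h : ∀ i, 0 < q i) (p : List Bool) :
    ∀ i, 0 < runQ p s q i := by
  induction p generalizing s q with
  | nil => exact h
  | cons b p ih => exact ih (nxtQ_pos h b)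

theorem pr_nonneg (s : Sta m) {q : Fin (m + 1) → ℝ} (h : ∀ i, 0 < q i) (b : Bool) :
    0 ≤ pr s b q := by
  rw [pr]
  have h1 := h (los s b)
  have h2 := h (win s b)
  positivity

theorem pr_add (s : Sta m) {q : Fin (m + 1) → ℝ} (h : ∀ i, 0 < q i) :
    pr s true q + pr s false q = 1 := by
  have h1 := h (et s)
  have h2 := h (eb s)
  simp only [pr, los, win, if_true, Bool.false_eq_true, if_false]
  rw [add_comm (q (et s)) (q (eb s)), ← add_div, div_self (by positivity)]

end Rz

end Pool.Agent.H773.IE
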