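import Mathlib
import Pool.Agent.H773.IE.Rz

/-!
# Rauzy induction: statements
-/

set_option autoImplicit false

open MeasureTheory Set Filter Topology
open scoped ENNReal

namespace Pool.Agent.H773.IE

/-- a step preserves irreducibility -/
def S_irr : Prop := ∀ (m : ℕ), 1 ≤ m → ∀ (s : Sta m), IrrS s → ∀ b, IrrS (nxt s b)

/-- exponential distributions: positive lengths; the null sets are those of Lebesgue measure -/
def S_ex : Prop := ∀ (n : ℕ) (q : Fin n → ℝ), (∀ i, 0 < q i) →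
  (∀ i, IsProbabilityMeasure (ex (q i))) ∧ IsProbabilityMeasure (EE q) ∧
  (∀ᵐ lam ∂(EE q), ∀ i, 0 < lam i) ∧ EE q ≪ volume ∧
  (volume.restrict {lam : Fin n → ℝ | ∀ i, 0 < lam i}) ≪ EE q

/-- the law of a step: the loser `r` has an exponential distribution with the parameter
`q r + q w`, the new length of the winner is independent -/
def S_law : Prop := ∀ (n : ℕ) (r w : Fin n), r ≠ w → ∀ q : Fin n → ℝ, (∀ i, 0 < q i) →
  ∀ A : Set (Fin n → ℝ), MeasurableSet A →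
    EE q {lam | lam r < lam w ∧ Function.update lam w (lam w - lam r) ∈ A} =
      ENNReal.ofReal (q r / (q r + q w)) * EE (Function.update q r (q r + q w)) A

/-- the law along a list of outcomes -/
def S_lawp : Prop := ∀ (m : ℕ), 1 ≤ m → ∀ (s : Sta m), IrrS s → ∀ q : Fin (m + 1) → ℝ,
  (∀ i, 0 < q i) → ∀ (p : List Bool) (A : Set (Fin (m + 1) → ℝ)), MeasurableSet A →
    MeasurableSet {lam | Cyl p s lam} ∧ Measurable (runL p s) ∧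
    EE q {lam | Cyl p s lam ∧ runL p s lam ∈ A} =
      ENNReal.ofReal (prP p s q) * EE (runQ p s q) A

/-- there are no ties, almost surely -/
def S_tie : Prop := ∀ (m : ℕ), 1 ≤ m → ∀ (s : Sta m), IrrS s → ∀ q : Fin (m + 1) → ℝ,
  (∀ i, 0 < q i) → ∀ᵐ lam ∂(EE q), NoTie s lam

/-- hitting probabilities -/
def S_link : Prop := ∀ (m : ℕ), 1 ≤ m → ∀ (T : Sta m → (Fin (m + 1) → ℝ) → Prop) (s : Sta m),
  IrrS s → ∀ q : Fin (m + 1) → ℝ, (∀ i, 0 < q i) →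
    hP T s q = EE q {lam | ∃ p, Cyl p s lam ∧ T (run p s) (runQ p s q)}

/-- hitting probabilities are minimal nonnegative superharmonic functions -/
def S_min : Prop := ∀ (m : ℕ) (T D : Sta m → (Fin (m + 1) → ℝ) → Prop)
  (f : Sta m → (Fin (m + 1) → ℝ) → ℝ≥0∞),
  (∀ s q, D s q → T s q → 1 ≤ f s q) →
  (∀ s q, D s q → ¬ T s q → (∀ b, D (nxt s b) (nxtQ s b q)) ∧
    ENNReal.ofReal (pr s true q) * f (nxt s true) (nxtQ s true q) +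
      ENNReal.ofReal (pr s false q) * f (nxt s false) (nxtQ s false q) ≤ f s q) →
  ∀ s q, D s q → hP T s q ≤ f s q

/-- basic properties of hitting probabilities: harmonicity; composition of hitting times -/
def S_comp : Prop := ∀ (m : ℕ), 1 ≤ m → ∀ (T : Sta m → (Fin (m + 1) → ℝ) → Prop),
  (∀ s q, T s q → hP T s q = 1) ∧
  (∀ s q, ¬ T s q → hP T s q =
    ENNReal.ofReal (pr s true q) * hP T (nxt s true) (nxtQ s true q) +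
      ENNReal.ofReal (pr s false q) * hP T (nxt s false) (nxtQ s false q)) ∧
  (∀ s (q : Fin (m + 1) → ℝ), IrrS s → (∀ i, 0 < q i) → hP T s q ≤ 1) ∧
  ∀ (T' : Sta m → (Fin (m + 1) → ℝ) → Prop) (c : ℝ≥0∞),
    (∀ s (q : Fin (m + 1) → ℝ), IrrS s → (∀ i, 0 < q i) → T' s q → c ≤ hP T s q) →
    ∀ s (q : Fin (m + 1) → ℝ), IrrS s → (∀ i, 0 < q i) → c * hP T' s q ≤ hP T s q

/-- monotonicity of the hitting probability in the target; following a given path -/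
def S_mono : Prop := ∀ (m : ℕ), 1 ≤ m → ∀ (T : Sta m → (Fin (m + 1) → ℝ) → Prop),
  (∀ T' : Sta m → (Fin (m + 1) → ℝ) → Prop,
    (∀ s (q : Fin (m + 1) → ℝ), IrrS s → (∀ i, 0 < q i) → T s q → T' s q) →
    ∀ s (q : Fin (m + 1) → ℝ), IrrS s → (∀ i, 0 < q i) → hP T s q ≤ hP T' s q) ∧
  ∀ s (q : Fin (m + 1) → ℝ), IrrS s → (∀ i, 0 < q i) → ∀ p : List Bool,
    T (run p s) (runQ p s q) → ENNReal.ofReal (prP p s q) ≤ hP T s q

/-- every letter wins (deterministic): without ties every letter wins at some time -/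
def S_K : Prop := ∀ (m : ℕ), 1 ≤ m → ∀ (s : Sta m) (lam : Fin (m + 1) → ℝ), IrrS s →
  (∀ i, 0 < lam i) → NoTie s lam → ∀ i, ∃ p b, Cyl (p ++ [b]) s lam ∧ win (run p s) b = i

/-- paths to the letters outside of `B` -/
def S_path : Prop := ∀ (m : ℕ), 1 ≤ m → ∀ (s : Sta m), IrrS s →
  ∀ B : Finset (Fin (m + 1)), B ≠ Finset.univ →
    ∃ p : List Bool, (et (run p s) ∉ B ∨ eb (run p s) ∉ B) ∧
      ∀ p', p' <+: p → p' ≠ p → et (run p' s) ∈ B ∧ eb (run p' s) ∈ B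

/-- first phase of a round of Kerckhoff's argument -/
def S_round1 : Prop := ∀ (m : ℕ), 1 ≤ m → ∀ ρ : ℝ, 0 < ρ → ∃ c : ℝ≥0∞, 0 < c ∧ ∃ C : ℝ, 1 ≤ C ∧
  ∀ (s : Sta m), IrrS s → ∀ B : Finset (Fin (m + 1)), B.Nonempty → B ≠ Finset.univ →
  ∀ (θ M : ℝ) (q : Fin (m + 1) → ℝ), 0 < θ → ρ * M ≤ θ → (∀ i, 0 < q i) → (∀ i, q i ≤ M) →
    (∀ i ∈ B, θ ≤ q i) → (∀ i, i ∉ B → q i < θ) →
    c ≤ hP (fun s' q' => IrrS s' ∧ (∀ i, 0 < q' i) ∧ (∀ i ∈ B, θ ≤ q' i) ∧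
      (∀ i, i ∉ B → q' i < θ) ∧ (∀ i, q' i ≤ C * M) ∧ (et s' ∉ B ∨ eb s' ∉ B)) s q

/-- second phase of a round of Kerckhoff's argument -/
def S_round2 : Prop := ∀ (m : ℕ), 1 ≤ m →
  ∀ (s : Sta m), IrrS s → ∀ B : Finset (Fin (m + 1)), B.Nonempty → B ≠ Finset.univ →
  ∀ (θ M : ℝ) (q : Fin (m + 1) → ℝ), 0 < θ → (∀ i, 0 < q i) → (∀ i, q i ≤ M) →
    (∀ i ∈ B, θ ≤ q i) → (∀ i, i ∉ B → q i < θ) → (et s ∉ B ∨ eb s ∉ B) →
    (1 / 2 : ℝ≥0∞) ≤ hP (fun s' q' => IrrS s' ∧ (∀ i, 0 < q' i) ∧ (∀ i ∈ B, θ ≤ q' i) ∧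
      (∃ i, i ∉ B ∧ θ ≤ q' i) ∧ (∀ i, q' i ≤ (2 * (m + 1 : ℝ) + 1) * M)) s q

/-- balanced heights are reached with probability at least `c` -/
def S_bal : Prop := ∀ (m : ℕ), 1 ≤ m → ∃ R : ℝ, 1 ≤ R ∧ ∃ c : ℝ≥0∞, 0 < c ∧
  ∀ (s : Sta m), IrrS s → ∀ q : Fin (m + 1) → ℝ, (∀ i, 0 < q i) →
    c ≤ hP (fun s' q' => IrrS s' ∧ (∀ i, 0 < q' i) ∧ Bal R q') s q

/-- paths with positive matrices -/
def S_gam : Prop := ∀ (m : ℕ), 1 ≤ m → ∀ (s : Sta m), IrrS s → ∃ p : List Bool,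
  ∀ q : Fin (m + 1) → ℝ, (∀ i, 0 ≤ q i) → ∀ i, ∑ j, q j ≤ runQ p s q i

/-- the heights are balanced and the next outcomes are the given ones at some time, with
probability bounded from below -/
def S_io1 : Prop := ∀ (m : ℕ), 1 ≤ m → ∀ (γ : Sta m → List Bool) (R : ℝ) (c : ℝ≥0∞), 0 < c →
  (∀ (s : Sta m), IrrS s → ∀ q : Fin (m + 1) → ℝ, (∀ i, 0 < q i) →
    c ≤ hP (fun s' q' => IrrS s' ∧ (∀ i, 0 < q' i) ∧ Bal R q') s q) →
  ∃ c' : ℝ≥0∞, 0 < c' ∧ ∀ (s : Sta m), IrrS s → ∀ q : Fin (m + 1) → ℝ, (∀ i, 0 < q i) →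
    c' ≤ EE q {lam | ∃ p : List Bool, Cyl (p ++ γ (run p s)) s lam ∧ Bal R (runQ p s q)}

/-- a zero-one law -/
def S_io2 : Prop := ∀ (m : ℕ), 1 ≤ m → ∀ (γ : Sta m → List Bool) (R : ℝ) (c : ℝ≥0∞), 0 < c →
  (∀ (s : Sta m), IrrS s → ∀ q : Fin (m + 1) → ℝ, (∀ i, 0 < q i) →
    c ≤ EE q {lam | ∃ p : List Bool, Cyl (p ++ γ (run p s)) s lam ∧ Bal R (runQ p s q)}) →
  ∀ (s : Sta m), IrrS s → ∀ q : Fin (m + 1) → ℝ, (∀ i, 0 < q i) →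
    ∀ᵐ lam ∂(EE q), ∀ K : ℕ, ∃ p : List Bool, K ≤ p.length ∧
      Cyl (p ++ γ (run p s)) s lam ∧ Bal R (runQ p s q)

/-- infinitely often the heights are balanced and the next outcomes are the given ones -/
def S_io : Prop := ∀ (m : ℕ), 1 ≤ m → ∀ γ : Sta m → List Bool, ∃ R : ℝ, 1 ≤ R ∧
  ∀ (s : Sta m), IrrS s → ∀ q : Fin (m + 1) → ℝ, (∀ i, 0 < q i) →
    ∀ᵐ lam ∂(EE q), ∀ K : ℕ, ∃ p : List Bool, K ≤ p.length ∧
      Cyl (p ++ γ (run p s)) s lam ∧ Bal R (runQ p s q)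

/-- from the orthant to the simplex -/
def S_transfer : Prop := ∀ (m : ℕ) (P : (Fin (m + 1) → ℝ) → Prop),
  (∀ c : ℝ, 0 < c → ∀ lam : Fin (m + 1) → ℝ, (∀ i, 0 < lam i) → P lam →
    P (fun i => c * lam i)) →
  (∀ᵐ lam ∂(volume : Measure (Fin (m + 1) → ℝ)), (∀ i, 0 < lam i) → P lam) →
  ∀ᵐ x ∂(volume : Measure (Fin m → ℝ)), (∀ i, 0 < x i) → ∑ i, x i < 1 →
    P (Fin.snoc (α := fun _ => ℝ) x (1 - ∑ i, x i))

/-- interval exchange transformations are translations on the pieces and preserve the measure -/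
def S_sys : Prop := ∀ (n : ℕ) (lam : Fin n → ℝ) (σ : Equiv.Perm (Fin n)), (∀ j, 0 < lam j) →
  ∑ j, lam j = 1 → Sys (iet lam σ) (piece lam) (fun j => left' lam σ j - left lam j)

/-- the initial state -/
def S_geo0 : Prop := ∀ (m : ℕ) (lam : Fin (m + 1) → ℝ) (σ : Equiv.Perm (Fin (m + 1))),
  (∀ j, 0 < lam j) → ∑ j, lam j = 1 →
  Geo (iet lam σ) (piece lam) (fun j => left' lam σ j - left lam j) (1, σ) lam (fun i => [i])

/-- a step, the last top letter wins -/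
def S_geoT : Prop := ∀ (m : ℕ) (T : ℝ → ℝ) (P : Fin (m + 1) → Set ℝ) (τ : Fin (m + 1) → ℝ),
  (∀ j, ∀ x ∈ P j, T x = x + τ j) → ∀ (s : Sta m) (lam : Fin (m + 1) → ℝ)
  (w : Fin (m + 1) → List (Fin (m + 1))), et s ≠ eb s → Geo T P τ s lam w →
  lam (eb s) < lam (et s) → Geo T P τ (nxt s true) (nxtL s true lam) (nxtW s true w)

/-- a step, the last bottom letter wins -/
def S_geoF : Prop := ∀ (m : ℕ) (T : ℝ → ℝ) (P : Fin (m + 1) → Set ℝ) (τ : Fin (m + 1) → ℝ),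
  (∀ j, ∀ x ∈ P j, T x = x + τ j) → ∀ (s : Sta m) (lam : Fin (m + 1) → ℝ)
  (w : Fin (m + 1) → List (Fin (m + 1))), et s ≠ eb s → Geo T P τ s lam w →
  lam (et s) < lam (eb s) → Geo T P τ (nxt s false) (nxtL s false lam) (nxtW s false w)

/-- algebra of runs -/
def S_alg : Prop := ∀ (m : ℕ), 1 ≤ m → ∀ (s : Sta m), IrrS s → ∀ p : List Bool,
  (∀ q lam : Fin (m + 1) → ℝ, ∑ i, runQ p s q i * runL p s lam i = ∑ i, q i * lam i) ∧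
  (∀ lam : Fin (m + 1) → ℝ, (∀ i, 0 < lam i) → Cyl p s lam → (∀ i, 0 < runL p s lam i) ∧
    ∑ i, runL p s lam i ≤ ∑ i, lam i ∧ ∑ i, lam i ≤ 2 ^ p.length * ∑ i, runL p s lam i) ∧
  (∀ (q : Fin (m + 1) → ℝ) (M : ℝ), (∀ i, 0 < q i) → (∀ i, q i ≤ M) → (∀ i, q i ≤ runQ p s q i) ∧
    ∀ i, runQ p s q i ≤ 2 ^ p.length * M) ∧
  (∀ w : Fin (m + 1) → List (Fin (m + 1)), Nielsen w → Nielsen (runW p s w)) ∧
  (∀ (w : Fin (m + 1) → List (Fin (m + 1))) (i : Fin (m + 1)), ((runW p s w i).length : ℝ) =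
    runQ p s (fun j => ((w j).length : ℝ)) i)

/-- the level of a good time, from the geometry at two times -/
def S_levgeo : Prop := ∀ (m : ℕ) (T : ℝ → ℝ) (P : Fin (m + 1) → Set ℝ) (τ : Fin (m + 1) → ℝ),
  Sys T P τ → ∀ (s s' : Sta m) (lam lam' : Fin (m + 1) → ℝ)
  (w w' : Fin (m + 1) → List (Fin (m + 1))), Geo T P τ s lam w → Geo T P τ s' lam' w' →
  Nielsen w' → ∀ (L : ℕ) (c C : ℝ), 0 < c → (∀ i, L ≤ (w i).length) → (∀ i, L ≤ (w' i).length) →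
  ∑ i, ((w i).length : ℝ) * lam i = 1 → (∀ i, ∑ j, lam' j ≤ lam i) →
  (∀ i, c * ∑ j, lam' j ≤ lam' i) → c ≤ L * ∑ j, lam' j →
  (∀ i, (w' i).length * ∑ j, lam' j ≤ C) →
  ∃ p : List (Fin (m + 1)), Lev T P τ c C (∑ j, lam' j) (uT s' lam') lam' w' p

/-- arbitrarily small levels -/
def S_lev : Prop := ∀ (m : ℕ), 1 ≤ m → ∀ (σ : Equiv.Perm (Fin (m + 1))) (γ : Sta m → List Bool),
  IrrS ((1, σ) : Sta m) →
  (∀ s, IrrS s → ∀ q : Fin (m + 1) → ℝ, (∀ i, 0 ≤ q i) → ∀ i, ∑ j, q j ≤ runQ (γ s) s q i) →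
  ∀ R : ℝ, 1 ≤ R → ∀ lam : Fin (m + 1) → ℝ, (∀ i, 0 < lam i) → ∑ i, lam i = 1 →
  (∀ K : ℕ, ∃ p : List Bool, K ≤ p.length ∧
    Cyl (p ++ (γ (run p (1, σ)) ++ γ (run (γ (run p (1, σ))) (run p (1, σ))))) (1, σ) lam ∧
    Bal R (runQ p (1, σ) (fun _ => 1))) →
  ∃ c : ℝ, 0 < c ∧ ∃ C : ℝ, ∀ δ : ℝ, 0 < δ → ∃ b u l w p, b < δ ∧
    Lev (iet lam σ) (piece lam) (fun j => left' lam σ j - left lam j) c C b u l w p

/-- boxes from levels -/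
def S_box : Prop := ∀ (n : ℕ) (T : ℝ → ℝ) (P : Fin n → Set ℝ) (τ : Fin n → ℝ), Sys T P τ →
  ∀ c C : ℝ, 0 < c → (∀ δ : ℝ, 0 < δ → ∃ b u l w p, b < δ ∧ Lev T P τ c C b u l w p) →
  ∃ (a b : ℕ → ℝ) (u l : ℕ → Fin n → ℝ) (w : ℕ → Fin n → List (Fin n)),
    (∀ k, Box T P τ c (a k) (b k) (u k) (l k) (w k)) ∧ (∀ k, 0 ≤ a k ∧ b k ≤ 1) ∧
    0 < volume (Xinf a b)

/-- ergodicity from levels -/
def S_er : Prop := ∀ (n : ℕ) (T : ℝ → ℝ) (P : Fin n → Set ℝ) (τ : Fin n → ℝ), Sys T P τ →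
  ∀ c C : ℝ, 0 < c → (∀ δ : ℝ, 0 < δ → ∃ b u l w p, b < δ ∧ Lev T P τ c C b u l w p) →
  Ergodic T leb

/-- Part R: typical interval exchange transformations are ergodic and have boxes -/
def S_R : Prop := ∀ (m : ℕ), 1 ≤ m → ∀ σ : Equiv.Perm (Fin (m + 1)), Irr σ →
  ∀ᵐ x ∂(volume : Measure (Fin m → ℝ)), (∀ i, 0 < x i) → ∑ i, x i < 1 →
    ∀ lam : Fin (m + 1) → ℝ, lam = Fin.snoc (α := fun _ => ℝ) x (1 - ∑ i, x i) →
    Ergodic (iet lam σ) leb ∧ ∃ c : ℝ, 0 < c ∧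
      ∃ (a b : ℕ → ℝ) (u l : ℕ → Fin (m + 1) → ℝ) (w : ℕ → Fin (m + 1) → List (Fin (m + 1))),
        (∀ k, Box (iet lam σ) (piece lam) (fun j => left' lam σ j - left lam j) c (a k) (b k)
          (u k) (l k) (w k)) ∧ (∀ k, 0 ≤ a k ∧ b k ≤ 1) ∧ 0 < volume (Xinf a b)

end Pool.Agent.H773.IE
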