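import Mathlib
import Pool.Agent.H773.IE.Defs

/-!
# Howe-Moore theorem for `SL(d,ℝ)`, null sets: statements
-/

set_option autoImplicit false

open MeasureTheory Set Filter Topology
open scoped ENNReal

namespace Pool.Agent.H773.IE

/-- the group `SL(d,ℝ)` -/
abbrev SLR (d : ℕ) := Matrix.SpecialLinearGroup (Fin d) ℝ

/-- strongly continuous orthogonal representations -/
structure Rep {G H : Type} [Group G] [TopologicalSpace G] [NormedAddCommGroup H]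
    [InnerProductSpace ℝ H] (U : G →* (H →L[ℝ] H)) : Prop where
  iso : ∀ g v, ‖U g v‖ = ‖v‖
  cont : ∀ v, Continuous fun g => U g v

/-- matrix coefficients tend to zero at infinity -/
def MixR {G H : Type} [Group G] [TopologicalSpace G] [NormedAddCommGroup H]
    [InnerProductSpace ℝ H] (U : G →* (H →L[ℝ] H)) : Prop :=
  ∀ v w, Tendsto (fun g => inner ℝ (U g v) w) (cocompact G) (𝓝 0)

/-- weak limits along ultrafilters -/
def S_weak : Prop := ∀ (H : Type) [NormedAddCommGroup H] [InnerProductSpace ℝ H]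
  [CompleteSpace H] (ι : Type) (𝒰 : Ultrafilter ι) (f : ι → H) (C : ℝ), (∀ i, ‖f i‖ ≤ C) →
  ∃ v : H, (∀ w, Tendsto (fun i => inner ℝ (f i) w) 𝒰 (𝓝 (inner ℝ v w))) ∧
    ∀ (e : H) (r : ℝ), (∀ᶠ i in (𝒰 : Filter ι), ‖f i - e‖ ≤ r) → ‖v - e‖ ≤ r

/-- orthogonal matrices in `SL(d,ℝ)` -/
def Orth {d : ℕ} (k : SLR d) : Prop := (k : Matrix (Fin d) (Fin d) ℝ).transpose * k.1 = 1

/-- diagonal matrices in `SL(d,ℝ)` -/
def dgm {d : ℕ} (a : Fin d → ℝ) (ha : (Matrix.diagonal a).det = 1) : SLR d :=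
  ⟨Matrix.diagonal a, ha⟩

/-- the Cartan decomposition -/
def S_KAK : Prop := ∀ (d : ℕ), 2 ≤ d → ∀ (g : SLR d), ∃ (k₁ k₂ : SLR d) (a : Fin d → ℝ)
  (ha : (Matrix.diagonal a).det = 1), (∀ i, 0 < a i) ∧ Orth k₁ ∧ Orth k₂ ∧
    g = k₁ * dgm a ha * k₂

/-- the orthogonal matrices are compact -/
def S_orthc : Prop := ∀ (d : ℕ), IsCompact {k : SLR d | Orth k}

/-- contraction -/
def S_contr : Prop := ∀ (G H : Type) [Group G] [TopologicalSpace G] [IsTopologicalGroup G]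
  [NormedAddCommGroup H] [InnerProductSpace ℝ H] [CompleteSpace H] (U : G →* (H →L[ℝ] H)),
  Rep U → ∀ (ι : Type) (𝒰 : Ultrafilter ι) (a : ι → G) (v v₀ : H),
  (∀ w, Tendsto (fun i => inner ℝ (U (a i) v) w) 𝒰 (𝓝 (inner ℝ v₀ w))) →
  ∀ u : G, Tendsto (fun i => (a i)⁻¹ * u * a i) 𝒰 (𝓝 1) → U u v₀ = v₀

/-- vectors fixed by the transvections at `(i,j)` are fixed by the diagonal matrices at `i,j` -/
def S_H3 : Prop := ∀ (d : ℕ) (H : Type) [NormedAddCommGroup H] [InnerProductSpace ℝ H]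
  [CompleteSpace H] (U : SLR d →* (H →L[ℝ] H)), Rep U → ∀ (i j : Fin d) (hij : i ≠ j) (v : H),
  (∀ t : ℝ, U (Matrix.SpecialLinearGroup.transvection hij t) v = v) →
  ∀ (a : ℝ) (ha : a ≠ 0), U (Matrix.SpecialLinearGroup.diag2n hij a ha) v = v

/-- vectors fixed by the diagonal matrices at `i,j` are fixed by the group -/
def S_H4 : Prop := ∀ (d : ℕ) (H : Type) [NormedAddCommGroup H] [InnerProductSpace ℝ H]
  [CompleteSpace H] (U : SLR d →* (H →L[ℝ] H)), Rep U → ∀ (i j : Fin d) (hij : i ≠ j) (v : H),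
  (∀ (a : ℝ) (ha : a ≠ 0), U (Matrix.SpecialLinearGroup.diag2n hij a ha) v = v) →
  ∀ g, U g v = v

/-- decay along diagonal matrices -/
def S_HMd : Prop := ∀ (d : ℕ) (H : Type) [NormedAddCommGroup H] [InnerProductSpace ℝ H]
  [CompleteSpace H] (U : SLR d →* (H →L[ℝ] H)), Rep U → (∀ v, (∀ g, U g v = v) → v = 0) →
  ∀ (ι : Type) (𝒰 : Ultrafilter ι) (a : ι → Fin d → ℝ)
    (ha : ∀ x, (Matrix.diagonal (a x)).det = 1) (i j : Fin d), i ≠ j → (∀ x k, 0 < a x k) →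
    Tendsto (fun x => a x j / a x i) 𝒰 (𝓝 0) →
    ∀ v w, Tendsto (fun x => inner ℝ (U (dgm (a x) (ha x)) v) w) 𝒰 (𝓝 0)

/-- the Howe-Moore theorem -/
def S_HM : Prop := ∀ (d : ℕ), 2 ≤ d → ∀ (H : Type) [NormedAddCommGroup H] [InnerProductSpace ℝ H]
  [CompleteSpace H] (U : SLR d →* (H →L[ℝ] H)), Rep U → (∀ v, (∀ g, U g v = v) → v = 0) →
  MixR U

/-- topology of `SL(d,ℝ)` -/
def S_top : Prop := ∀ d : ℕ, LocallyCompactSpace (SLR d) ∧ SecondCountableTopology (SLR d) ∧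
  T2Space (SLR d)

/-- unimodularity -/
def S_uni : Prop := ∀ (d : ℕ), 2 ≤ d → ∀ [MeasurableSpace (SLR d)] [BorelSpace (SLR d)]
  (μ : Measure (SLR d)) [μ.IsHaarMeasure], μ.IsMulRightInvariant

/-- the rational transvections generate a dense subgroup -/
def S_dense : Prop := ∀ (d : ℕ), 2 ≤ d →
  Dense (Subgroup.closure {g : SLR d | ∃ (i j : Fin d) (hij : i ≠ j) (t : ℚ),
    g = Matrix.SpecialLinearGroup.transvection hij (t : ℝ)} : Set (SLR d))

/-- zero sets of polynomial functions are null sets -/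
def S_null : Prop := ∀ (d : ℕ), 2 ≤ d → ∀ [MeasurableSpace (SLR d)] [BorelSpace (SLR d)]
  (μ : Measure (SLR d)) [μ.IsHaarMeasure] (f : SLR d → ℝ), Continuous f →
  (∀ (g : SLR d) (i j : Fin d) (hij : i ≠ j), ∃ p : Polynomial ℝ, ∀ t : ℝ,
    f (g * Matrix.SpecialLinearGroup.transvection hij t) = p.eval t) →
  (∃ g, f g ≠ 0) → μ {g | f g = 0} = 0

/-- compact subgroups preserve a positive definite form -/
def S_form : Prop := ∀ (d : ℕ) (K : Subgroup (SLR d)), IsCompact (K : Set (SLR d)) →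
  ∃ P : Matrix (Fin d) (Fin d) ℝ, P.PosDef ∧
    ∀ k ∈ K, (k : Matrix (Fin d) (Fin d) ℝ).transpose * P * k.1 = P

/-- traces in compact subgroups -/
def S_trc : Prop := ∀ (d : ℕ) (K : Subgroup (SLR d)), IsCompact (K : Set (SLR d)) →
  ∀ k ∈ K, Matrix.trace (k : Matrix (Fin d) (Fin d) ℝ) =
    Matrix.trace ((k⁻¹ : SLR d) : Matrix (Fin d) (Fin d) ℝ)

/-- compact subgroups of `SL(2,ℝ)` are commutative -/
def S_comm2 : Prop := ∀ (K : Subgroup (SLR 2)), IsCompact (K : Set (SLR 2)) →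
  ∀ k ∈ K, ∀ l ∈ K, k * l = l * k

/-- typical tuples are not in a compact subgroup -/
def S_ncpt : Prop := ∀ (d : ℕ), 2 ≤ d → ∀ (n : ℕ), 2 ≤ n →
  ∀ [MeasurableSpace (SLR d)] [BorelSpace (SLR d)] (μ : Measure (SLR d)) [μ.IsHaarMeasure],
  ∀ᵐ a ∂(Measure.pi fun _ : Fin n => μ), ¬ ∃ K : Subgroup (SLR d),
    IsCompact (K : Set (SLR d)) ∧ ∀ i, a i ∈ K

/-- typical tuples do not have common invariant vectors -/
def S_N : Prop := ∀ (d : ℕ), 2 ≤ d → ∀ (n : ℕ), 2 ≤ n →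
  ∀ [MeasurableSpace (SLR d)] [BorelSpace (SLR d)] (μ : Measure (SLR d)) [μ.IsHaarMeasure]
  (H : Type) [NormedAddCommGroup H] [InnerProductSpace ℝ H] [CompleteSpace H]
  (U : SLR d →* (H →L[ℝ] H)), Rep U → MixR U →
  ∀ᵐ a ∂(Measure.pi fun _ : Fin n => μ), ∀ v, (∀ i, U (a i) v = v) → v = 0

end Pool.Agent.H773.IE
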