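import Mathlib
import Pool.Agent.H773.IE.SH

/-!
# The main argument and the assembly: statements
-/

set_option autoImplicit false

open MeasureTheory Set Filter Topology
open scoped ENNReal

namespace Pool.Agent.H773.IE

/-- the tuples which almost fix a unit vector close to `e` -/
def SS {G H : Type} [Group G] [NormedAddCommGroup H] [InnerProductSpace ℝ H]
    (U : G →* (H →L[ℝ] H)) (n : ℕ) (e : H) (δ : ℝ) : Set (Fin n → G) :=
  {a | ∃ ψ : H, ‖ψ - e‖ ≤ 1 / 8 ∧ ∀ i, ‖U (a i) ψ - ψ‖ ≤ δ}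

/-- `SS` is closed -/
def S_clo : Prop := ∀ (G H : Type) [Group G] [TopologicalSpace G] [IsTopologicalGroup G]
  [NormedAddCommGroup H] [InnerProductSpace ℝ H] [CompleteSpace H] (U : G →* (H →L[ℝ] H)),
  Rep U → ∀ (n : ℕ) (e : H) (δ : ℝ), IsClosed (SS U n e δ)

/-- `SS` is compact for small `δ` -/
def S_cpt : Prop := ∀ (G H : Type) [Group G] [TopologicalSpace G] [IsTopologicalGroup G]
  [NormedAddCommGroup H] [InnerProductSpace ℝ H] [CompleteSpace H] (U : G →* (H →L[ℝ] H)),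
  Rep U → MixR U → ∀ (n : ℕ) (e : H), ‖e‖ = 1 → IsCompact (SS U n e (1 / 8))

/-- the intersection of the sets `SS` -/
def S_int : Prop := ∀ (G H : Type) [Group G] [TopologicalSpace G] [IsTopologicalGroup G]
  [NormedAddCommGroup H] [InnerProductSpace ℝ H] [CompleteSpace H] (U : G →* (H →L[ℝ] H)),
  Rep U → ∀ (n : ℕ) (e : H), ‖e‖ = 1 → ∀ a : Fin n → G, (∀ k : ℕ, a ∈ SS U n e (1 / (k + 1))) →
  ∃ v : H, v ≠ 0 ∧ ∀ i, U (a i) v = v

/-- the measure of `SS` tends to zero -/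
def S_small : Prop := ∀ (G H : Type) [Group G] [TopologicalSpace G] [IsTopologicalGroup G]
  [T2Space G] [LocallyCompactSpace G] [SecondCountableTopology G] [MeasurableSpace G]
  [BorelSpace G] (μ : Measure G) [μ.IsHaarMeasure]
  [NormedAddCommGroup H] [InnerProductSpace ℝ H] [CompleteSpace H] (U : G →* (H →L[ℝ] H)),
  Rep U → MixR U → ∀ (n : ℕ), 1 ≤ n →
  (∀ᵐ a ∂(Measure.pi fun _ : Fin n => μ), ∀ v, (∀ i, U (a i) v = v) → v = 0) →
  ∀ e : H, ‖e‖ = 1 → ∀ ε : ℝ≥0∞, 0 < ε → ∃ δ : ℝ, 0 < δ ∧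
    Measure.pi (fun _ : Fin n => μ) (SS U n e δ) ≤ ε

/-- rotated Nielsen words preserve the product of Haar measures -/
def S_haar : Prop := ∀ (G : Type) [Group G] [MeasurableSpace G] [MeasurableMul₂ G]
  [MeasurableInv G] (μ : Measure G) [SigmaFinite μ] [μ.IsMulLeftInvariant]
  [μ.IsMulRightInvariant] (n : ℕ) (w : Fin n → List (Fin n)), Rot w →
  MeasurePreserving (fun (g : Fin n → G) i => wprod g (w i)) (Measure.pi fun _ => μ)
    (Measure.pi fun _ => μ)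

/-- at Lebesgue points the words of small boxes almost fix the value of an equivariant
function -/
def S_leb : Prop := ∀ (G H : Type) [Group G] [NormedAddCommGroup H] [InnerProductSpace ℝ H]
  [CompleteSpace H] (U : G →* (H →L[ℝ] H)), (∀ g v, ‖U g v‖ = ‖v‖) →
  ∀ (n : ℕ) (T : ℝ → ℝ) (P : Fin n → Set ℝ) (τ : Fin n → ℝ), Sys T P τ →
  ∀ (c : ℝ), 0 < c → ∀ (a b : ℕ → ℝ) (u l : ℕ → Fin n → ℝ) (w : ℕ → Fin n → List (Fin n)),
  (∀ k, Box T P τ c (a k) (b k) (u k) (l k) (w k)) → (∀ k, 0 ≤ a k ∧ b k ≤ 1) →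
  ∀ (g : Fin n → G) (F : ℝ → H), StronglyMeasurable F → (∀ x, ‖F x‖ ≤ 1) →
  (∀ j, ∀ᵐ x ∂leb, x ∈ P j → F (T x) = U (g j) (F x)) →
  ∀ᵐ x ∂leb, ∀ δ : ℝ, 0 < δ → ∃ r : ℝ, 0 < r ∧ ∀ k, x ∈ Ico (a k) (b k) → b k - a k < r →
    ∀ i, ‖U (wprod g (w k i)) (F x) - F x‖ ≤ δ

/-- a Fatou argument -/
def S_fatou : Prop := ∀ (Ω : Type) [MeasurableSpace Ω] (ν : Measure Ω) [SFinite ν]
  (a b : ℕ → ℝ) (B : ℕ → Set Ω) (β : ℝ≥0∞), (∀ k, MeasurableSet (B k)) → (∀ k, ν (B k) ≤ β) →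
  ∀ κ : ℝ≥0∞, κ * ν {ω | κ ≤ leb {x | x ∈ Xinf a b ∧ ∃ r : ℝ, 0 < r ∧
    ∀ k, x ∈ Ico (a k) (b k) → b k - a k < r → ω ∈ B k}} ≤ β

/-- the main theorem on equivariant functions -/
def S_main : Prop := ∀ (G H : Type) [Group G] [TopologicalSpace G] [IsTopologicalGroup G]
  [T2Space G] [LocallyCompactSpace G] [SecondCountableTopology G] [MeasurableSpace G]
  [BorelSpace G] (μ : Measure G) [μ.IsHaarMeasure] [μ.IsMulRightInvariant]
  [NormedAddCommGroup H] [InnerProductSpace ℝ H] [CompleteSpace H] [SecondCountableTopology H]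
  (U : G →* (H →L[ℝ] H)), Rep U → MixR U → ∀ (n : ℕ), 1 ≤ n →
  (∀ᵐ a ∂(Measure.pi fun _ : Fin n => μ), ∀ v, (∀ i, U (a i) v = v) → v = 0) →
  ∀ (T : ℝ → ℝ) (P : Fin n → Set ℝ) (τ : Fin n → ℝ), Sys T P τ → Ergodic T leb →
  ∀ (c : ℝ), 0 < c → ∀ (a b : ℕ → ℝ) (u l : ℕ → Fin n → ℝ) (w : ℕ → Fin n → List (Fin n)),
  (∀ k, Box T P τ c (a k) (b k) (u k) (l k) (w k)) → (∀ k, 0 ≤ a k ∧ b k ≤ 1) →
  0 < volume (Xinf a b) →
  ∀ᵐ g ∂(Measure.pi fun _ : Fin n => μ), ∀ F : ℝ → H, StronglyMeasurable F →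
    (∀ j, ∀ᵐ x ∂leb, x ∈ P j → F (T x) = U (g j) (F x)) → ∀ᵐ x ∂leb, F x = 0

/-- functions of mean zero -/
noncomputable def L0 {X : Type} [MeasurableSpace X] (m : Measure X) [IsProbabilityMeasure m] :
    Submodule ℝ (Lp ℝ 2 m) where
  carrier := {f | ∫ y, (f : X → ℝ) y ∂m = 0}
  add_mem' := by
    intro f g hf hg
    have h1 := Lp.coeFn_add f g
    simp only [mem_setOf_eq] at hf hg ⊢
    rw [integral_congr_ae h1]
    simp only [Pi.add_apply]
    rw [integral_add ((Lp.memLp f).integrable (by norm_num)) ((Lp.memLp g).integrable (by norm_num)),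
      hf, hg, add_zero]
  zero_mem' := by
    simp only [mem_setOf_eq]
    rw [integral_congr_ae (Lp.coeFn_zero ℝ 2 m)]
    simp
  smul_mem' := by
    intro c f hf
    simp only [mem_setOf_eq] at hf ⊢
    rw [integral_congr_ae (Lp.coeFn_smul c f)]
    simp only [Pi.smul_apply]
    rw [integral_smul, hf, smul_zero]

/-- `L0` is closed -/
def S_L0 : Prop := ∀ (X : Type) [MeasurableSpace X] (m : Measure X) [IsProbabilityMeasure m],
  IsClosed ((L0 m : Submodule ℝ (Lp ℝ 2 m)) : Set (Lp ℝ 2 m))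

/-- invariant functions of transitive actions are constant -/
def S_inv : Prop := ∀ (G X : Type) [Group G] [TopologicalSpace G] [IsTopologicalGroup G]
  [LocallyCompactSpace G] [SecondCountableTopology G] [MeasurableSpace G] [BorelSpace G]
  (μ : Measure G) [μ.IsHaarMeasure] [μ.IsMulRightInvariant]
  [TopologicalSpace X] [SecondCountableTopology X] [MeasurableSpace X] [BorelSpace X]
  [MulAction G X] [ContinuousSMul G X] [MulAction.IsPretransitive G X]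
  (m : Measure X) [IsProbabilityMeasure m] [SMulInvariantMeasure G X m] (f : X → ℝ),
  Measurable f → (∀ g : G, ∀ᵐ y ∂m, f (g • y) = f y) → ∃ c : ℝ, ∀ᵐ y ∂m, f y = c

/-- the Koopman representation -/
def S_koop : Prop := ∀ (G X : Type) [Group G] [TopologicalSpace G] [IsTopologicalGroup G]
  [MeasurableSpace G] [BorelSpace G]
  [TopologicalSpace X] [T2Space X] [LocallyCompactSpace X] [SecondCountableTopology X]
  [MeasurableSpace X] [BorelSpace X] [MulAction G X] [ContinuousSMul G X]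
  (m : Measure X) [IsProbabilityMeasure m] [SMulInvariantMeasure G X m],
  ∃ U : G →* (Lp ℝ 2 m →L[ℝ] Lp ℝ 2 m), Rep U ∧
    ∀ (g : G) (f : Lp ℝ 2 m), ∀ᵐ y ∂m, (U g f : X → ℝ) y = (f : X → ℝ) (g⁻¹ • y)

/-- the Koopman representation on the functions of mean zero -/
def S_koop0 : Prop := ∀ (G X : Type) [Group G] [TopologicalSpace G] [IsTopologicalGroup G]
  [LocallyCompactSpace G] [SecondCountableTopology G] [MeasurableSpace G] [BorelSpace G]
  (μ : Measure G) [μ.IsHaarMeasure] [μ.IsMulRightInvariant]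
  [TopologicalSpace X] [T2Space X] [LocallyCompactSpace X] [SecondCountableTopology X]
  [MeasurableSpace X] [BorelSpace X] [MulAction G X] [ContinuousSMul G X]
  [MulAction.IsPretransitive G X]
  (m : Measure X) [IsProbabilityMeasure m] [SMulInvariantMeasure G X m],
  ∃ U : G →* (L0 m →L[ℝ] L0 m), Rep U ∧ (∀ v, (∀ g, U g v = v) → v = 0) ∧
    ∀ (g : G) (f : L0 m), ∀ᵐ y ∂m, ((U g f : L0 m) : X → ℝ) y = (f : X → ℝ) (g⁻¹ • y)

/-- slices of measurable sets -/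
def S_slice : Prop := ∀ (X : Type) [TopologicalSpace X] [SecondCountableTopology X]
  [MeasurableSpace X] [BorelSpace X]
  (m : Measure X) [IsProbabilityMeasure m] (s : Set (ℝ × X)), MeasurableSet s →
  ∃ F : ℝ → L0 m, StronglyMeasurable F ∧ ∀ x, ∀ᵐ y ∂m,
    ((F x : L0 m) : X → ℝ) y = s.indicator (fun _ => (1 : ℝ)) (x, y) - m.real {y | (x, y) ∈ s}

/-- from equivariant functions to invariant sets -/
def S_fin : Prop := ∀ (G X : Type) [Group G] [TopologicalSpace G] [IsTopologicalGroup G]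
  [SecondCountableTopology G] [MeasurableSpace G] [BorelSpace G]
  [TopologicalSpace X] [SecondCountableTopology X]
  [MeasurableSpace X] [BorelSpace X] [MulAction G X] [ContinuousSMul G X]
  (m : Measure X) [IsProbabilityMeasure m] [SMulInvariantMeasure G X m]
  (U : G →* (L0 m →L[ℝ] L0 m)),
  (∀ (g : G) (f : L0 m), ∀ᵐ y ∂m, ((U g f : L0 m) : X → ℝ) y = (f : X → ℝ) (g⁻¹ • y)) →
  ∀ (n : ℕ) (lam : Fin n → ℝ) (σ : Equiv.Perm (Fin n)), (∀ j, 0 < lam j) → ∑ j, lam j = 1 →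
  Ergodic (iet lam σ) leb → ∀ g : Fin n → G,
  (∀ F : ℝ → L0 m, StronglyMeasurable F →
    (∀ j, ∀ᵐ x ∂leb, x ∈ piece lam j → F (iet lam σ x) = U (g j) (F x)) →
    ∀ᵐ x ∂leb, F x = 0) →
  Ergodic (skew lam σ g) (leb.prod m)

/-- the arithmetic group `SL(d,ℤ)` in `SL(d,ℝ)` -/
def SLZ (d : ℕ) : Subgroup (SLR d) :=
  (Matrix.SpecialLinearGroup.map (n := Fin d) (Int.castRingHom ℝ)).range

/-- topology of the homogeneous space -/
def S_quot : Prop := ∀ d : ℕ, T2Space (SLR d ⧸ SLZ d) ∧ LocallyCompactSpace (SLR d ⧸ SLZ d) ∧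
  SecondCountableTopology (SLR d ⧸ SLZ d) ∧ ContinuousSMul (SLR d) (SLR d ⧸ SLZ d)

end Pool.Agent.H773.IE
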