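import Mathlib
import Pool.Agent.H773.IE.SR

/-!
# Assembly of the Rauzy part
-/

set_option autoImplicit false

open MeasureTheory Set Filter Topology
open scoped ENNReal

namespace Pool.Agent.H773.IE

theorem asm_io (hbal : S_bal) (h1 : S_io1) (h2 : S_io2) : S_io := by
  intro m hm γ
  obtain ⟨R, hR, c, hc, h⟩ := hbal m hm
  obtain ⟨c', hc', h'⟩ := h1 m hm γ R c hc h
  exact ⟨R, hR, h2 m hm γ R c' hc' h'⟩

theorem cyl_scale {m : ℕ} (p : List Bool) (s : Sta m) (lam : Fin (m + 1) → ℝ) (c : ℝ)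
    (hc : 0 < c) (h : Cyl p s lam) : Cyl p s (fun i => c * lam i) := by
  induction p generalizing s lam with
  | nil => trivial
  | cons b p ih =>
    refine ⟨?_, ?_⟩
    · exact mul_lt_mul_of_pos_left h.1 hc
    · have h3 := ih (nxt s b) (nxtL s b lam) h.2
      have h4 : (fun i => c * nxtL s b lam i) = nxtL s b (fun i => c * lam i) := by
        funext i
        simp only [nxtL, Function.update_apply]
        split_ifs
        · ring
        · rfl
      rwa [h4] at h3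

theorem irr_init {m : ℕ} (σ : Equiv.Perm (Fin (m + 1))) (h : Irr σ) : IrrS ((1, σ) : Sta m) := by
  intro k hk hkm
  obtain ⟨i, h1, h2⟩ := h k hk (by omega)
  exact ⟨i, h1, h2⟩

theorem snoc_pos {m : ℕ} (x : Fin m → ℝ) (h : ∀ i, 0 < x i) (h1 : ∑ i, x i < 1) :
    ∀ i, 0 < Fin.snoc (α := fun _ => ℝ) x (1 - ∑ i, x i) i := by
  intro i
  refine Fin.lastCases ?_ (fun j => ?_) i
  · rw [Fin.snoc_last]; linarith
  · rw [Fin.snoc_castSucc]; exact h j

theorem snoc_sum {m : ℕ} (x : Fin m → ℝ) :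
    ∑ i, Fin.snoc (α := fun _ => ℝ) x (1 - ∑ i, x i) i = 1 := by
  rw [Fin.sum_univ_castSucc]
  simp

theorem asm_R (hex : S_ex) (hgam : S_gam) (hio : S_io) (htra : S_transfer) (hsys : S_sys)
    (hlev : S_lev) (hbox : S_box) (her : S_er) : S_R := by
  intro m hm σ hσ
  have hs0 := irr_init σ hσ
  classical
  have hg : ∀ s : Sta m, ∃ p : List Bool, IrrS s → ∀ q : Fin (m + 1) → ℝ, (∀ i, 0 ≤ q i) →
      ∀ i, ∑ j, q j ≤ runQ p s q i := by
    intro s
    by_cases h : IrrS s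
    · obtain ⟨p, hp⟩ := hgam m hm s h
      exact ⟨p, fun _ => hp⟩
    · exact ⟨[], fun h' => absurd h' h⟩
  choose γ hγ using hg
  obtain ⟨R, hR, hio⟩ := hio m hm (fun s => γ s ++ γ (run (γ s) s))
  have h1 := hio (1, σ) hs0 (fun _ => 1) (fun _ => one_pos)
  obtain ⟨-, -, -, -, h2⟩ := hex (m + 1) (fun _ => 1) (fun _ => one_pos)
  have hmS : MeasurableSet {lam : Fin (m + 1) → ℝ | ∀ i, 0 < lam i} := by
    have : {lam : Fin (m + 1) → ℝ | ∀ i, 0 < lam i} = ⋂ i, {lam | 0 < lam i} := by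
      ext; simp
    rw [this]
    exact MeasurableSet.iInter fun i => measurableSet_lt measurable_const (measurable_pi_apply i)
  have h3 : ∀ᵐ lam ∂(volume.restrict {lam : Fin (m + 1) → ℝ | ∀ i, 0 < lam i}),
      ∀ K : ℕ, ∃ p : List Bool, K ≤ p.length ∧
      Cyl (p ++ (γ (run p (1, σ)) ++ γ (run (γ (run p (1, σ))) (run p (1, σ))))) (1, σ) lam ∧
      Bal R (runQ p (1, σ) (fun _ => 1)) := h2.ae_le h1
  rw [ae_restrict_iff' hmS] at h3
  · have h4 := htra m (fun lam => ∀ K : ℕ, ∃ p : List Bool, K ≤ p.length ∧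
      Cyl (p ++ (γ (run p (1, σ)) ++ γ (run (γ (run p (1, σ))) (run p (1, σ))))) (1, σ) lam ∧
      Bal R (runQ p (1, σ) (fun _ => 1))) ?_ ?_
    · filter_upwards [h4] with x hx hx1 hx2 lam hlam
      subst hlam
      obtain ⟨c, hc, C, hL⟩ := hlev m hm σ γ hs0 (fun s hs => hγ s hs) R hR _
        (snoc_pos x hx1 hx2) (snoc_sum x) (hx hx1 hx2)
      have hS := hsys (m + 1) _ σ (snoc_pos x hx1 hx2) (snoc_sum x)
      exact ⟨her _ _ _ _ hS c C hc hL, c, hc, hbox _ _ _ _ hS c C hc hL⟩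
    · intro c hc lam _ h K
      obtain ⟨p, h5, h6, h7⟩ := h K
      exact ⟨p, h5, cyl_scale _ _ _ c hc h6, h7⟩
    · filter_upwards [h3] with lam h5 h6
      exact h5 h6

end Pool.Agent.H773.IE
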