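import Mathlib
import Pool.Agent.H773.IE.AsmR
import Pool.Agent.H773.IE.SM

/-!
# Final assembly
-/

set_option autoImplicit false

open MeasureTheory Set Filter Topology
open scoped ENNReal

namespace Pool.Agent.H773.IE

/-- the main theorem -/
def S_final : Prop := ∀ (d : ℕ), 2 ≤ d → ∀ (m : ℕ), 1 ≤ m → ∀ σ : Equiv.Perm (Fin (m + 1)),
  Irr σ → ∀ [MeasurableSpace (SLR d)] [BorelSpace (SLR d)] (μ : Measure (SLR d))
  [μ.IsHaarMeasure] [MeasurableSpace (SLR d ⧸ SLZ d)] [BorelSpace (SLR d ⧸ SLZ d)]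
  (ν : Measure (SLR d ⧸ SLZ d)) [IsProbabilityMeasure ν]
  [SMulInvariantMeasure (SLR d) (SLR d ⧸ SLZ d) ν],
  ∀ᵐ x ∂(volume : Measure (Fin m → ℝ)), (∀ i, 0 < x i) → ∑ i, x i < 1 →
    ∀ᵐ g ∂(Measure.pi fun _ : Fin (m + 1) => μ),
      Ergodic (skew (Fin.snoc (α := fun _ => ℝ) x (1 - ∑ i, x i)) σ g) (leb.prod ν)

theorem asm_final (hR : S_R) (hsys : S_sys) (htop : S_top) (huni : S_uni) (hHM : S_HM) (hN : S_N)
    (hL0 : S_L0) (hkoop0 : S_koop0) (hmain : S_main) (hfin : S_fin) (hquot : S_quot) :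
    S_final := by
  intro d hd m hm σ hσ _ _ μ _ _ _ ν _ _
  obtain ⟨h1, h2, h3⟩ := htop d
  obtain ⟨h4, h5, h6, h7⟩ := hquot d
  haveI := huni d hd μ
  obtain ⟨U, hU, hinv, hUf⟩ := hkoop0 (SLR d) (SLR d ⧸ SLZ d) μ ν
  haveI : CompleteSpace (L0 ν) := (hL0 _ ν).completeSpace_coe
  haveI : Fact ((2 : ℝ≥0∞) ≠ ∞) := ⟨ENNReal.ofNat_ne_top⟩
  haveI : SecondCountableTopology (Lp ℝ 2 ν) := inferInstance
  haveI : SecondCountableTopology (L0 ν) := inferInstance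
  have hmix : MixR U := hHM d hd (L0 ν) U hU hinv
  have hn := hN d hd (m + 1) (by omega) μ (L0 ν) U hU hmix
  filter_upwards [hR m hm σ hσ] with x hx hx1 hx2
  obtain ⟨herg, c, hc, a, b, u, l, w, hB, hab, hpos⟩ := hx hx1 hx2 _ rfl
  have hS := hsys (m + 1) _ σ (snoc_pos x hx1 hx2) (snoc_sum x)
  have h8 := hmain (SLR d) (L0 ν) μ U hU hmix (m + 1) (by omega) hn _ _ _ hS herg c hc a b u l w
    hB hab hpos
  filter_upwards [h8] with g hg
  exact hfin (SLR d) (SLR d ⧸ SLZ d) ν U hUf (m + 1) _ σ (snoc_pos x hx1 hx2) (snoc_sum x) herg g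
    hg

end Pool.Agent.H773.IE
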