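import Mathlib
import Pool.Agent.H773.IE.SM

/-!
# The main theorem on equivariant functions
-/

set_option autoImplicit false

open MeasureTheory Set Filter Topology
open scoped ENNReal

namespace Pool.Agent.H773.IE

/-- the bad set -/
def Bad {G H : Type} [Group G] [NormedAddCommGroup H] [InnerProductSpace ℝ H]
    (U : G →* (H →L[ℝ] H)) (n : ℕ) (a b : ℕ → ℝ) (w : ℕ → Fin n → List (Fin n)) (e : H)
    (κ : ℝ≥0∞) (δ : ℝ) : Set (Fin n → G) :=
  {g | κ ≤ leb {x | x ∈ Xinf a b ∧ ∃ r : ℝ, 0 < r ∧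
    ∀ k, x ∈ Ico (a k) (b k) → b k - a k < r →
      g ∈ (fun (g : Fin n → G) i => wprod g (w k i)) ⁻¹' SS U n e δ}}

theorem bad_null {G H : Type} [Group G] [TopologicalSpace G] [IsTopologicalGroup G]
    [T2Space G] [LocallyCompactSpace G] [SecondCountableTopology G] [MeasurableSpace G]
    [BorelSpace G] (μ : Measure G) [μ.IsHaarMeasure] [μ.IsMulRightInvariant]
    [NormedAddCommGroup H] [InnerProductSpace ℝ H] [CompleteSpace H]
    (hclo : S_clo) (hsmall : S_small) (hhaar : S_haar) (hfatou : S_fatou)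
    (U : G →* (H →L[ℝ] H)) (hU : Rep U) (hmix : MixR U) (n : ℕ) (hn : 1 ≤ n)
    (hinv : ∀ᵐ a ∂(Measure.pi fun _ : Fin n => μ), ∀ v, (∀ i, U (a i) v = v) → v = 0)
    (a b : ℕ → ℝ) (w : ℕ → Fin n → List (Fin n)) (hw : ∀ k, Rot (w k)) (e : H) (he : ‖e‖ = 1)
    (κ : ℝ≥0∞) (hκ : κ ≠ 0) (hκ' : κ ≠ ∞) :
    Measure.pi (fun _ : Fin n => μ) (⋂ j : ℕ, Bad U n a b w e κ (1 / (j + 1))) = 0 := by
  have h1 : ∀ δ : ℝ, κ * Measure.pi (fun _ : Fin n => μ) (Bad U n a b w e κ δ) ≤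
      Measure.pi (fun _ : Fin n => μ) (SS U n e δ) := by
    intro δ
    have hm : MeasurableSet (SS U n e δ) := (hclo G H U hU n e δ).measurableSet
    have hmp := fun k => hhaar G μ n (w k) (hw k)
    exact hfatou (Fin n → G) (Measure.pi fun _ => μ) a b
      (fun k => (fun (g : Fin n → G) i => wprod g (w k i)) ⁻¹' SS U n e δ) _
      (fun k => (hmp k).measurable hm) (fun k => ((hmp k).measure_preimage hm.nullMeasurableSet).le) κ
  have h2 : ∀ ε : ℝ≥0∞, 0 < ε → κ * Measure.pi (fun _ : Fin n => μ)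
      (⋂ j : ℕ, Bad U n a b w e κ (1 / (j + 1))) ≤ ε := by
    intro ε hε
    obtain ⟨δ, hδ, h3⟩ := hsmall G H μ U hU hmix n hn hinv e he ε hε
    obtain ⟨j, hj⟩ := exists_nat_one_div_lt hδ
    have h4 : SS U n e (1 / (j + 1)) ⊆ SS U n e δ := by
      rintro x ⟨ψ, h5, h6⟩
      exact ⟨ψ, h5, fun i => (h6 i).trans hj.le⟩
    calc κ * Measure.pi (fun _ : Fin n => μ) (⋂ j : ℕ, Bad U n a b w e κ (1 / (j + 1)))
        ≤ κ * Measure.pi (fun _ : Fin n => μ) (Bad U n a b w e κ (1 / (j + 1))) := by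
          gcongr
          exact iInter_subset _ j
      _ ≤ Measure.pi (fun _ : Fin n => μ) (SS U n e (1 / (j + 1))) := h1 _
      _ ≤ Measure.pi (fun _ : Fin n => μ) (SS U n e δ) := measure_mono h4
      _ ≤ ε := h3
  have h3 : κ * Measure.pi (fun _ : Fin n => μ) (⋂ j : ℕ, Bad U n a b w e κ (1 / (j + 1))) = 0 := by
    by_contra h
    have h4 := h2 _ (ENNReal.half_pos h)
    by_cases h5 : κ * Measure.pi (fun _ : Fin n => μ)
      (⋂ j : ℕ, Bad U n a b w e κ (1 / (j + 1))) = ∞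
    · have := h2 1 one_pos
      rw [h5] at this
      exact absurd this (by simp)
    · exact absurd h4 (not_le.2 (ENNReal.half_lt_self h h5))
  rcases mul_eq_zero.1 h3 with h4 | h4
  · exact absurd h4 hκ
  · exact h4

theorem asm_main (hclo : S_clo) (hsmall : S_small) (hhaar : S_haar) (hleb : S_leb)
    (hfatou : S_fatou) : S_main := by
  intro G H _ _ _ _ _ _ _ _ μ _ _ _ _ _ _ U hU hmix n hn hinv T P τ hS herg c hc a b u l w hB
    hab hpos
  -- a countable dense set of unit vectors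
  obtain ⟨D, hDc, hDd⟩ := TopologicalSpace.exists_countable_dense {e : H // ‖e‖ = 1}
  have hbad : ∀ᵐ g ∂(Measure.pi fun _ : Fin n => μ), ∀ e ∈ D, ∀ k : ℕ,
      ∃ j : ℕ, g ∉ Bad U n a b w (e : {e : H // ‖e‖ = 1}).1 ((k : ℝ≥0∞) + 1)⁻¹ (1 / (j + 1)) := by
    rw [ae_ball_iff hDc]
    intro e _
    rw [ae_all_iff]
    intro k
    have h1 := bad_null μ hclo hsmall hhaar hfatou U hU hmix n hn hinv a b w
      (fun k => (hB k).rot) e.1 e.2 ((k : ℝ≥0∞) + 1)⁻¹ (by simp) (by simp)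
    rw [ae_iff]
    refine measure_mono_null (fun g hg => ?_) h1
    simp only [not_exists, not_not, mem_setOf_eq] at hg
    exact mem_iInter.2 hg
  filter_upwards [hbad] with g hg F hF hFe
  -- the norm is constant
  have hn1 : ∀ᵐ x ∂leb, ‖F (T x)‖ = ‖F x‖ := by
    have h1 : ∀ᵐ x ∂leb, x ∈ Ico (0 : ℝ) 1 := ae_restrict_mem measurableSet_Ico
    filter_upwards [h1, ae_all_iff.2 hFe] with x hx h2
    rw [hS.cover] at hx
    obtain ⟨j, hj⟩ := mem_iUnion.1 hx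
    rw [h2 j hj, hU.iso]
  obtain ⟨c₀, hc₀⟩ := herg.ae_eq_const_of_ae_eq_comp₀ (g := fun x => ‖F x‖)
    hF.norm.measurable.nullMeasurable hn1
  by_cases hz : c₀ = 0
  · filter_upwards [hc₀] with x hx
    rw [hz] at hx
    simpa using hx
  exfalso
  -- normalize
  set F1 : ℝ → H := fun x => ‖F x‖⁻¹ • F x with hF1
  have hF1m : StronglyMeasurable F1 := by
    exact (hF.norm.measurable.inv.stronglyMeasurable).smul hF
  have hF1n : ∀ x, ‖F1 x‖ ≤ 1 := by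
    intro x
    rw [hF1, norm_smul, norm_inv, norm_norm]
    exact inv_mul_le_one
  have hF1e : ∀ j, ∀ᵐ x ∂leb, x ∈ P j → F1 (T x) = U (g j) (F1 x) := by
    intro j
    filter_upwards [hFe j, hn1] with x h1 h2 hx
    simp only [hF1]
    rw [h2, h1 hx, map_smul]
  have hF11 : ∀ᵐ x ∂leb, ‖F1 x‖ = 1 := by
    filter_upwards [hc₀] with x hx
    simp only [hF1]
    rw [norm_smul, norm_inv, norm_norm]
    apply inv_mul_cancel₀
    simp only [Function.const_apply] at hx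
    rw [hx]
    exact hz
  have hL := hleb G H U hU.iso n T P τ hS c hc a b u l w hB hab g F1 hF1m hF1n hF1e
  -- covering
  set V : {e : H // ‖e‖ = 1} → Set ℝ := fun e => {x | x ∈ Xinf a b ∧ ‖F1 x - e.1‖ ≤ 1 / 8 ∧
    ∀ δ : ℝ, 0 < δ → ∃ r : ℝ, 0 < r ∧ ∀ k, x ∈ Ico (a k) (b k) → b k - a k < r →
    ∀ i, ‖U (wprod g (w k i)) (F1 x) - F1 x‖ ≤ δ} with hV
  have hXsub : Xinf a b ⊆ Ico (0 : ℝ) 1 := by
    intro x hx
    obtain ⟨k, hk, -⟩ := hx 1 one_pos
    exact ⟨(hab k).1.trans hk.1, hk.2.trans_le (hab k).2⟩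
  have hX : leb (Xinf a b) ≠ 0 := by
    rw [leb, Measure.restrict_eq_self _ hXsub]
    exact hpos.ne'
  have hcov : leb (⋃ e ∈ D, V e) ≠ 0 := by
    intro h0
    apply hX
    refine measure_mono_null (t := (⋃ e ∈ D, V e) ∪ {x | ¬ (‖F1 x‖ = 1 ∧
      ∀ δ : ℝ, 0 < δ → ∃ r : ℝ, 0 < r ∧ ∀ k, x ∈ Ico (a k) (b k) → b k - a k < r →
      ∀ i, ‖U (wprod g (w k i)) (F1 x) - F1 x‖ ≤ δ)}) ?_ ?_
    · intro x hx
      by_cases h1 : (‖F1 x‖ = 1 ∧
        ∀ δ : ℝ, 0 < δ → ∃ r : ℝ, 0 < r ∧ ∀ k, x ∈ Ico (a k) (b k) → b k - a k < r →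
        ∀ i, ‖U (wprod g (w k i)) (F1 x) - F1 x‖ ≤ δ)
      · left
        obtain ⟨e, he, hed⟩ := hDd.exists_dist_lt ⟨F1 x, h1.1⟩ (ε := 1 / 8) (by norm_num)
        refine mem_biUnion he ⟨hx, ?_, h1.2⟩
        rw [Subtype.dist_eq, dist_eq_norm] at hed
        exact hed.le
      · right
        exact h1
    · rw [measure_union_null_iff]
      refine ⟨h0, ?_⟩
      rw [← ae_iff]
      filter_upwards [hF11, hL] with x h1 h2
      exact ⟨h1, h2⟩
  rw [Ne, measure_biUnion_null_iff hDc] at hcov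
  push Not at hcov
  obtain ⟨e, he, hVe⟩ := hcov
  obtain ⟨k, hk⟩ := ENNReal.exists_inv_nat_lt hVe
  obtain ⟨j, hj⟩ := hg e he k
  apply hj
  show ((k : ℝ≥0∞) + 1)⁻¹ ≤ leb _
  calc ((k : ℝ≥0∞) + 1)⁻¹ ≤ (k : ℝ≥0∞)⁻¹ := by
        apply ENNReal.inv_le_inv.2
        exact le_self_add
    _ ≤ leb (V e) := hk.le
    _ ≤ _ := by
        apply measure_mono
        rintro x ⟨h1, h2, h3⟩
        refine ⟨h1, ?_⟩
        obtain ⟨r, hr, h4⟩ := h3 (1 / (j + 1)) (by positivity)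
        refine ⟨r, hr, fun k' hk' hlen => ?_⟩
        exact ⟨F1 x, h2, h4 k' hk' hlen⟩

end Pool.Agent.H773.IE
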