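import Mathlib
import Pool.Agent.H773.IE.AsmF
import Pool.Agent.H773.IE.AsmM
import Pool.Agent.H773.IE.P.Irr
import Pool.Agent.H773.IE.P.Ex
import Pool.Agent.H773.IE.P.Law
import Pool.Agent.H773.IE.P.Lawp
import Pool.Agent.H773.IE.P.Hit
import Pool.Agent.H773.IE.P.Link
import Pool.Agent.H773.IE.P.K
import Pool.Agent.H773.IE.P.Path
import Pool.Agent.H773.IE.P.Round1
import Pool.Agent.H773.IE.P.RND2
import Pool.Agent.H773.IE.P.BAL
import Pool.Agent.H773.IE.P.Gam
import Pool.Agent.H773.IE.P.IO1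
import Pool.Agent.H773.IE.P.IO2
import Pool.Agent.H773.IE.P.Transfer
import Pool.Agent.H773.IE.P.Sys
import Pool.Agent.H773.IE.P.GeoT
import Pool.Agent.H773.IE.P.GeoF
import Pool.Agent.H773.IE.P.Alg
import Pool.Agent.H773.IE.P.LevGeo
import Pool.Agent.H773.IE.P.Lev
import Pool.Agent.H773.IE.P.BoxL
import Pool.Agent.H773.IE.P.Er
import Pool.Agent.H773.IE.P.Weak
import Pool.Agent.H773.IE.P.KAK
import Pool.Agent.H773.IE.P.Contr
import Pool.Agent.H773.IE.P.H3
import Pool.Agent.H773.IE.P.H4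
import Pool.Agent.H773.IE.P.HMD
import Pool.Agent.H773.IE.P.Uni
import Pool.Agent.H773.IE.P.Den
import Pool.Agent.H773.IE.P.Null
import Pool.Agent.H773.IE.P.Form
import Pool.Agent.H773.IE.P.NCPT
import Pool.Agent.H773.IE.P.Clo
import Pool.Agent.H773.IE.P.Haar
import Pool.Agent.H773.IE.P.Leb
import Pool.Agent.H773.IE.P.FAT
import Pool.Agent.H773.IE.P.Inv
import Pool.Agent.H773.IE.P.Koop
import Pool.Agent.H773.IE.P.SLI
import Pool.Agent.H773.IE.P.Fin
import Pool.Agent.H773.IE.P.Quo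

/-!
# The final theorem
-/

set_option autoImplicit false

open MeasureTheory Set Filter Topology

namespace Pool.Agent.H773.IE

theorem p_irr : S_irr := Pool.Agent.H784.IE.t_irr
theorem p_ex : S_ex := Pool.Agent.H671.IE.t_ex
theorem p_law : S_law := Pool.Agent.H196.IE.t_law p_ex
theorem p_lawp : S_lawp := Pool.Agent.H747.IE.t_lawp p_ex p_law p_irr
theorem p_tie : S_tie := Pool.Agent.H747.IE.t_tie p_ex p_lawp
theorem p_min : S_min := Pool.Agent.H671.IE.t_min
theorem p_comp : S_comp := Pool.Agent.H671.IE.t_comp p_irr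
theorem p_mono : S_mono := Pool.Agent.H671.IE.t_mono p_irr
theorem p_link : S_link := Pool.Agent.H597.IE.t_link p_irr p_lawp p_tie
theorem p_K : S_K := Pool.Agent.H803.IE.t_K p_irr
theorem p_path : S_path := Pool.Agent.H707.IE.t_path p_ex p_tie p_K
theorem p_round1 : S_round1 := Pool.Agent.H100.IE.Round1.t_round1 p_irr p_path p_mono
theorem p_round2 : S_round2 :=
  Pool.Agent.H729.IE.t_round2 p_ex p_irr p_tie p_link p_K p_min p_comp
theorem p_bal : S_bal := Pool.Agent.H695.IE.t_bal p_irr p_comp p_mono p_round1 p_round2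
theorem p_gam : S_gam := Pool.Agent.H155.IE.t_gam p_ex p_irr p_tie p_K
theorem p_io1 : S_io1 := Pool.Agent.H407.IE.t_io1 p_irr p_lawp p_link
theorem p_io2 : S_io2 := Pool.Agent.H213.IE.t_io2 p_ex p_irr p_lawp p_tie
theorem p_transfer : S_transfer := Pool.Agent.H746.IE.t_transfer
theorem p_sys : S_sys := Pool.Agent.H284.IE.t_sys
theorem p_geo0 : S_geo0 := Pool.Agent.H284.IE.t_geo0
theorem p_geoT : S_geoT := Pool.Agent.H282.IE.t_geoT
theorem p_geoF : S_geoF := Pool.Agent.H249.IE.t_geoF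
theorem p_alg : S_alg := Pool.Agent.H94.IE.t_alg p_irr
theorem p_levgeo : S_levgeo := Pool.Agent.H603.IELG.t_levgeo
theorem p_lev : S_lev :=
  Pool.Agent.H553.IE.t_lev p_irr p_sys p_geo0 p_geoT p_geoF p_alg p_levgeo
theorem p_box : S_box := Pool.Agent.H261.IE.t_box
theorem p_er : S_er := Pool.Agent.H549.IE.t_er
theorem p_R : S_R :=
  asm_R p_ex p_gam (asm_io p_bal p_io1 p_io2) p_transfer p_sys p_lev p_box p_er

theorem p_weak : S_weak := Pool.Agent.H331.IE.Weak.t_weak
theorem p_KAK : S_KAK := Pool.Agent.H77.IE.t_KAK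
theorem p_orthc : S_orthc := Pool.Agent.H77.IE.t_orthc
theorem p_contr : S_contr := Pool.Agent.H784.IE.t_contr
theorem p_top : S_top := Pool.Agent.H784.IE.t_top
theorem p_H3 : S_H3 := Pool.Agent.H975.IE.t_H3
theorem p_H4 : S_H4 := Pool.Agent.H707.IE.t_H4 p_H3
theorem p_HMd : S_HMd := Pool.Agent.H400.IE.t_HMd p_weak p_contr p_H3 p_H4
theorem p_HM : S_HM := Pool.Agent.H400.IE.t_HM p_KAK p_orthc p_top p_HMd
theorem p_uni : S_uni := Pool.Agent.H127.IE.t_uni p_top
theorem p_dense : S_dense := Pool.Agent.H154.IE.t_dense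
theorem p_null : S_null := Pool.Agent.H190.IE.Null.t_null p_top p_uni p_dense
theorem p_form : S_form := Pool.Agent.H284.IE.t_form
theorem p_trc : S_trc := Pool.Agent.H284.IE.t_trc p_form
theorem p_comm2 : S_comm2 := Pool.Agent.H284.IE.t_comm2 p_form
theorem p_ncpt : S_ncpt := Pool.Agent.H278.IE.NCPT.t_ncpt p_top p_null p_trc p_comm2
theorem p_N : S_N := Pool.Agent.H784.IE.t_N p_top p_ncpt

theorem p_clo : S_clo := Pool.Agent.H200.IE.t_clo p_weak
theorem p_cpt : S_cpt := Pool.Agent.H200.IE.t_cpt p_clo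
theorem p_int : S_int := Pool.Agent.H200.IE.t_int p_weak
theorem p_small : S_small := Pool.Agent.H200.IE.t_small p_clo p_cpt p_int
theorem p_haar : S_haar := Pool.Agent.H597.IE.t_haar
theorem p_leb : S_leb := Pool.Agent.H747.IE.t_leb
theorem p_fatou : S_fatou := Pool.Agent.H665.IE.t_fatou
theorem p_main : S_main := asm_main p_clo p_small p_haar p_leb p_fatou
theorem p_inv : S_inv := Pool.Agent.H106.IE.t_inv
theorem p_L0 : S_L0 := Pool.Agent.H828.IE.t_L0
theorem p_koop : S_koop := Pool.Agent.H828.IE.t_koop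
theorem p_koop0 : S_koop0 := Pool.Agent.H828.IE.t_koop0 p_L0 p_inv p_koop
theorem p_slice : S_slice := Pool.Agent.H695.IE.t_slice
theorem p_fin : S_fin := Pool.Agent.H94.IE.t_fin p_sys p_slice
theorem p_quot : S_quot := Pool.Agent.H784.IE.t_quot

theorem p_final : S_final :=
  asm_final p_R p_sys p_top p_uni p_HM p_N p_L0 p_koop0 p_main p_fin p_quot

end Pool.Agent.H773.IE
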